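import Mathlib
import Pool.Agent.H209MF.Example

set_option autoImplicit false

namespace Pool.Agent.Results.MP_221c76_co.HomeoClosedFamily

open Pool.Agent.H209MF

universe u v

/-- A graph, finite or infinite; loops and multiple edges are allowed. `ends e` is the unordered
pair of the ends of the edge `e`. -/
structure MGraph : Type (u + 1) where
  V : Type u
  E : Type u
  ends : E → Sym2 V

/-- Every vertex is an end of some edge. -/
def NoIsolated (G : MGraph.{u}) : Prop := ∀ v : G.V, ∃ e : G.E, v ∈ G.ends e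

/-- `F` is the edge set of a subgraph of `Γ` that is isomorphic to `H`. -/
def IsCopy (H Γ : MGraph.{u}) (F : Set Γ.E) : Prop :=
  ∃ (fV : H.V → Γ.V) (fE : H.E → Γ.E), Function.Injective fV ∧ Function.Injective fE ∧
    (∀ e, Γ.ends (fE e) = (H.ends e).map fV) ∧ Set.range fE = F

/-- `G` and `H` are isomorphic. -/
def Iso (G H : MGraph.{u}) : Prop :=
  ∃ (fV : G.V → H.V) (fE : G.E → H.E), Function.Bijective fV ∧ Function.Bijective fE ∧
    ∀ e, H.ends (fE e) = (G.ends e).map fV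

/-- The edge sets of the subgraphs of `Γ` isomorphic to a member of `P`. -/
def circuits (P : MGraph.{u} → Prop) (Γ : MGraph.{u}) : Set (Set Γ.E) :=
  {F | ∃ H, P H ∧ IsCopy H Γ F}

/-- The circuit axioms (C1) and (C2). -/
def IsCircuits {E : Type u} (C : Set (Set E)) : Prop :=
  (∀ X ∈ C, ∀ Y ∈ C, X ⊆ Y → X = Y) ∧
  (∀ X ∈ C, ∀ Y ∈ C, X ≠ Y → ∀ e ∈ X ∩ Y, ∃ T ∈ C, T ⊆ (X ∪ Y) \ {e})

/-- A generalized matroidal family of graphs (a class closed under isomorphism). -/
def IsGenMatroidal (P : MGraph.{u} → Prop) : Prop :=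
  (∃ G, P G) ∧ (∀ G H, P G → Iso G H → P H) ∧ ∀ Γ, IsCircuits (circuits P Γ)

/-- Replace every edge `e` by a path with `k e` new inner vertices, that is, with `k e + 1`
edges. -/
noncomputable def subdivide (G : MGraph.{u}) (k : G.E → ℕ) : MGraph.{u} where
  V := G.V ⊕ (Σ e : G.E, Fin (k e))
  E := Σ e : G.E, Fin (k e + 1)
  ends := pathEnds G.ends k

open Classical in
/-- `H` is obtained, up to isomorphism, from `G` by subdividing one edge once. -/
def Step (G H : MGraph.{u}) : Prop :=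
  ∃ e : G.E, Iso (subdivide G (fun x => if x = e then 1 else 0)) H

/-- `G` and `H` are homeomorphic: both arise from a common graph by finite (possibly empty)
sequences of subdivisions. -/
def Homeomorphic (G H : MGraph.{u}) : Prop :=
  ∃ W G' H' : MGraph.{u}, Relation.ReflTransGen Step W G' ∧ Iso G' G ∧
    Relation.ReflTransGen Step W H' ∧ Iso H' H

/-- `G` and `H` are homeomorphic in the wide sense: both arise from a common graph by replacing
every edge by a path of finite length (infinitely many edges may be subdivided at once). -/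
def WideHomeomorphic (G H : MGraph.{u}) : Prop :=
  ∃ (W : MGraph.{u}) (k l : W.E → ℕ), Iso (subdivide W k) G ∧ Iso (subdivide W l) H

/-! ### The family -/

/-- The members. -/
def Mem (G : MGraph.{u}) : Prop := Good (cyc G.ends) Set.univ ∧ NoIsolated G

lemma good_nonempty {E : Type u} {W : Submodule (ZMod 2) (E →₀ ZMod 2)} {X : Set E}
    (h : Good W X) : X.Nonempty := by
  obtain ⟨N, A, Z, hd⟩ := h
  have hB := hd.blk N le_rfl
  have h1 := hB.ncard_gt
  by_contra hcon
  rw [Set.not_nonempty_iff_eq_empty] at hcon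
  have h2 : Z N = ∅ := Set.subset_empty_iff.1 (hcon ▸ hd.subX le_rfl)
  rw [h2, Set.ncard_empty] at h1
  omega

lemma circuits_eq (Γ : MGraph.{u}) : circuits Mem Γ = {F | Good (cyc Γ.ends) F} := by
  ext F
  constructor
  · rintro ⟨H, ⟨hg, _⟩, fV, fE, hV, hE, he, rfl⟩
    obtain ⟨a, _⟩ := good_nonempty hg
    have : Nonempty H.E := ⟨a⟩
    exact (ext_copy hV hE he).good_of hg
  · intro hF
    let V' : Type u := {v : Γ.V // ∃ e ∈ F, v ∈ Γ.ends e}
    let H : MGraph.{u} := ⟨V', F, fun e =>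
      (Γ.ends e.1).attachWith (P := fun v => ∃ e ∈ F, v ∈ Γ.ends e) (fun v hv => ⟨e.1, e.2, hv⟩)⟩
    have he : ∀ e : H.E, Γ.ends (e.1) = (H.ends e).map Subtype.val := fun e =>
      (Sym2.attachWith_map_subtypeVal _).symm
    obtain ⟨a, ha⟩ := good_nonempty hF
    have : Nonempty H.E := ⟨⟨a, ha⟩⟩
    have hr : Set.range (Subtype.val : H.E → Γ.E) = F := Subtype.range_coe
    refine ⟨H, ⟨?_, ?_⟩, Subtype.val, Subtype.val, Subtype.val_injective, Subtype.val_injective,
      he, hr⟩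
    · have := ext_copy (ends := H.ends) (ends' := Γ.ends) (fV := (Subtype.val : H.V → Γ.V))
        (fE := (Subtype.val : H.E → Γ.E)) Subtype.val_injective Subtype.val_injective he
      rw [hr] at this
      exact this.good_back hF
    · rintro ⟨v, e, heF, hve⟩
      refine ⟨⟨e, heF⟩, ?_⟩
      have h1 := he ⟨e, heF⟩
      rw [h1, Sym2.mem_map] at hve
      obtain ⟨w, hw, hwv⟩ := hve
      have : w = ⟨v, e, heF, by rw [h1, Sym2.mem_map]; exact ⟨w, hw, hwv⟩⟩ := Subtype.ext hwv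
      rw [← this]
      exact hw

/-- The invariant: which blocks occur. -/
def Inv (G : MGraph.{u}) (n : ℕ) : Prop := HasBlk (cyc G.ends) Set.univ n

lemma iso_ext {G H : MGraph.{u}} [Nonempty G.E] (h : Iso G H) :
    ∃ π : H.E → G.E, Ext (cyc G.ends) (cyc H.ends) Set.univ π := by
  obtain ⟨fV, fE, hV, hE, he⟩ := h
  have := ext_copy hV.1 hE.1 he
  rw [hE.2.range_eq] at this
  exact ⟨_, this⟩

lemma inv_empty {G : MGraph.{u}} (h : IsEmpty G.E) (n : ℕ) : ¬ Inv G n := by
  rintro ⟨Z, _, hB, _⟩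
  have h1 := hB.ncard_gt
  have : Z = ∅ := by
    ext a
    exact (h.false a).elim
  rw [this, Set.ncard_empty] at h1
  omega

lemma Iso.inv {G H : MGraph.{u}} (h : Iso G H) (n : ℕ) : Inv G n ↔ Inv H n := by
  rcases isEmpty_or_nonempty G.E with h0 | h0
  · have h1 : IsEmpty H.E := by
      obtain ⟨fV, fE, hV, hE, he⟩ := h
      refine ⟨fun a => ?_⟩
      obtain ⟨b, _⟩ := hE.2 a
      exact h0.false b
    exact iff_of_false (inv_empty h0 n) (inv_empty h1 n)
  · obtain ⟨π, hπ⟩ := iso_ext h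
    exact hπ.hasBlk_iff n

lemma Iso.noIsolated {G H : MGraph.{u}} (h : Iso G H) (hG : NoIsolated G) : NoIsolated H := by
  obtain ⟨fV, fE, hV, hE, he⟩ := h
  intro v
  obtain ⟨w, rfl⟩ := hV.2 v
  obtain ⟨e, hw⟩ := hG w
  exact ⟨fE e, by rw [he, Sym2.mem_map]; exact ⟨w, hw, rfl⟩⟩

lemma Iso.mem {G H : MGraph.{u}} (h : Iso G H) (hG : Mem G) : Mem H := by
  obtain ⟨a, _⟩ := good_nonempty hG.1
  have : Nonempty G.E := ⟨a⟩
  obtain ⟨π, hπ⟩ := iso_ext h
  exact ⟨hπ.good_of hG.1, h.noIsolated hG.2⟩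

lemma Iso.symm {G H : MGraph.{u}} (h : Iso G H) : Iso H G := by
  obtain ⟨fV, fE, hV, hE, he⟩ := h
  obtain ⟨gV, hgV1, hgV2⟩ := Function.bijective_iff_has_inverse.1 hV
  obtain ⟨gE, hgE1, hgE2⟩ := Function.bijective_iff_has_inverse.1 hE
  refine ⟨gV, gE, Function.bijective_iff_has_inverse.2 ⟨fV, hgV2, hgV1⟩,
    Function.bijective_iff_has_inverse.2 ⟨fE, hgE2, hgE1⟩, fun e => ?_⟩
  have h1 := he (gE e)
  rw [hgE2 e] at h1
  rw [h1, Sym2.map_map]
  have : gV ∘ fV = id := funext hgV1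
  rw [this, Sym2.map_id]
  rfl

lemma subdivide_inv (G : MGraph.{u}) (k : G.E → ℕ) (n : ℕ) :
    Inv G n ↔ Inv (subdivide G k) n := (ext_subdiv G.ends k).hasBlk_iff n

lemma subdivide_noIsolated (G : MGraph.{u}) (k : G.E → ℕ) :
    NoIsolated G ↔ NoIsolated (subdivide G k) := by
  have hout : ∀ e : G.E, G.ends e = s((Quot.out (G.ends e)).1, (Quot.out (G.ends e)).2) :=
    fun e => (Quot.out_eq (G.ends e)).symm
  constructor
  · intro h
    rintro (v | ⟨e, i⟩)
    · obtain ⟨e, he⟩ := h v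
      rw [hout e, Sym2.mem_iff] at he
      rcases he with he | he
      · refine ⟨(⟨e, 0⟩ : Σ e : G.E, Fin (k e + 1)), ?_⟩
        show Sum.inl v ∈ s(pathVertex G.ends k e 0, pathVertex G.ends k e (0 + 1))
        rw [Sym2.mem_iff]
        left
        simp [pathVertex, ← he]
      · refine ⟨(⟨e, Fin.last (k e)⟩ : Σ e : G.E, Fin (k e + 1)), ?_⟩
        show Sum.inl v ∈ s(pathVertex G.ends k e (k e), pathVertex G.ends k e (k e + 1))
        rw [Sym2.mem_iff]
        right
        simp [pathVertex, ← he]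
    · refine ⟨(⟨e, i.castSucc⟩ : Σ e : G.E, Fin (k e + 1)), ?_⟩
      show Sum.inr ⟨e, i⟩ ∈ s(pathVertex G.ends k e i.1, pathVertex G.ends k e (i.1 + 1))
      rw [Sym2.mem_iff]
      right
      simp [pathVertex]
  · intro h v
    obtain ⟨⟨e, i⟩, he⟩ := h (Sum.inl v)
    refine ⟨e, ?_⟩
    rw [hout e, Sym2.mem_iff]
    have hpv : ∀ j, Sum.inl v = pathVertex G.ends k e j →
        v = (Quot.out (G.ends e)).1 ∨ v = (Quot.out (G.ends e)).2 := by
      intro j hj
      unfold pathVertex at hj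
      split_ifs at hj
      · exact Or.inl (Sum.inl.inj hj)
      · exact Or.inr (Sum.inl.inj hj)
    change Sum.inl v ∈ s(pathVertex G.ends k e i.1, pathVertex G.ends k e (i.1 + 1)) at he
    rw [Sym2.mem_iff] at he
    rcases he with he | he
    · exact hpv _ he
    · exact hpv _ he

lemma subdivide_mem (G : MGraph.{u}) (k : G.E → ℕ) : Mem G ↔ Mem (subdivide G k) := by
  unfold Mem
  rw [subdivide_noIsolated G k]
  refine and_congr_left fun _ => ⟨fun h => (ext_subdiv G.ends k).good_of h,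
    fun h => (ext_subdiv G.ends k).good_back h⟩

lemma step_mem {G H : MGraph.{u}} (h : Step G H) : Mem G ↔ Mem H := by
  obtain ⟨e, he⟩ := h
  rw [subdivide_mem G]
  exact ⟨fun h => he.mem h, fun h => he.symm.mem h⟩

lemma step_inv {G H : MGraph.{u}} (h : Step G H) (n : ℕ) : Inv G n ↔ Inv H n := by
  obtain ⟨e, he⟩ := h
  rw [subdivide_inv G, he.inv n]

lemma steps_mem {G H : MGraph.{u}} (h : Relation.ReflTransGen Step G H) : Mem G ↔ Mem H := by
  induction h with
  | refl => exact Iff.rfl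
  | tail _ h2 ih => exact ih.trans (step_mem h2)

lemma steps_inv {G H : MGraph.{u}} (h : Relation.ReflTransGen Step G H) (n : ℕ) :
    Inv G n ↔ Inv H n := by
  induction h with
  | refl => exact Iff.rfl
  | tail _ h2 ih => exact ih.trans (step_inv h2 n)

lemma homeo_mem {G H : MGraph.{u}} (h : Homeomorphic G H) (hG : Mem G) : Mem H := by
  obtain ⟨W, G', H', h1, h2, h3, h4⟩ := h
  exact h4.mem ((steps_mem h3).1 ((steps_mem h1).2 (h2.symm.mem hG)))

lemma homeo_inv {G H : MGraph.{u}} (h : Homeomorphic G H) (n : ℕ) : Inv G n ↔ Inv H n := by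
  obtain ⟨W, G', H', h1, h2, h3, h4⟩ := h
  rw [← h4.inv n, ← steps_inv h3 n, steps_inv h1 n, h2.inv n]

lemma wide_mem {G H : MGraph.{u}} (h : WideHomeomorphic G H) (hG : Mem G) : Mem H := by
  obtain ⟨W, k, l, h1, h2⟩ := h
  exact h2.mem ((subdivide_mem W l).1 ((subdivide_mem W k).2 (h1.symm.mem hG)))

lemma wide_inv {G H : MGraph.{u}} (h : WideHomeomorphic G H) (n : ℕ) : Inv G n ↔ Inv H n := by
  obtain ⟨W, k, l, h1, h2⟩ := h
  rw [← h2.inv n, ← subdivide_inv W l n, subdivide_inv W k n, h1.inv n]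

/-- The examples. -/
def ex (k : ℕ) : MGraph.{u} where
  V := ULift (Unit ⊕ (Σ m : ℕ, Fin (k + m + 2)))
  E := ULift (Fin (R k) ⊕ (Σ m : ℕ, Fin (k + m + 2) × Bool))
  ends := fun e => (ends0 k e.down).map ULift.up

lemma ex_ext (k : ℕ) : ∃ π : (ex.{u} k).E → _, Ext (cyc (ends0 k)) (cyc (ex.{u} k).ends)
    Set.univ π := by
  have hne : Nonempty (Fin (R k) ⊕ (Σ m : ℕ, Fin (k + m + 2) × Bool)) :=
    ⟨Sum.inr ⟨0, 0, false⟩⟩
  have := ext_copy (ends := ends0 k) (ends' := (ex.{u} k).ends) (fV := ULift.up)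
    (fE := ULift.up) ULift.up_injective ULift.up_injective (fun e => rfl)
  refine ⟨Function.invFun (ULift.up : _ → (ex.{u} k).E), ?_⟩
  convert this using 1
  exact ULift.up_surjective.range_eq.symm

lemma ex_inv (k n : ℕ) : Inv (ex.{u} k) n ↔ k ≤ n := by
  obtain ⟨π, hπ⟩ := ex_ext.{u} k
  rw [← hasBlk0 k n]
  exact (hπ.hasBlk_iff n).symm

lemma ex_mem (k : ℕ) (hk : 1 ≤ k) : Mem (ex.{u} k) := by
  obtain ⟨π, hπ⟩ := ex_ext.{u} k
  refine ⟨hπ.good_of ⟨_, _, _, dat0 k⟩, ?_⟩
  rintro ⟨⟨⟩ | ⟨m, j⟩⟩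
  · have hR : 0 < R k := by
      obtain ⟨j, rfl⟩ := Nat.exists_eq_add_of_le' hk
      rw [R_succ]
      omega
    refine ⟨ULift.up (Sum.inl ⟨0, hR⟩), ?_⟩
    show _ ∈ Sym2.map ULift.up s(Sum.inl (), Sum.inl ())
    simp
  · refine ⟨ULift.up (Sum.inr ⟨m, (j, false)⟩), ?_⟩
    show ULift.up (Sum.inr ⟨m, j⟩ : Unit ⊕ (Σ m : ℕ, Fin (k + m + 2))) ∈ Sym2.map ULift.up
      s((Sum.inr ⟨m, j⟩ : Unit ⊕ (Σ m : ℕ, Fin (k + m + 2))), Sum.inr ⟨m, j + 1⟩)
    simp

/-- There is a generalized matroidal family of graphs, without isolated vertices, that is closed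
under homeomorphism, even in the wide sense, and that has infinitely many homeomorphism classes,
even in the wide sense. -/
theorem result : ∃ P : MGraph.{u} → Prop,
    IsGenMatroidal P ∧ (∀ G, P G → NoIsolated G) ∧
    (∀ G H, P G → Homeomorphic G H → P H) ∧
    (∀ G H, P G → WideHomeomorphic G H → P H) ∧
    ∃ f : ℕ → MGraph.{u}, (∀ n, P (f n)) ∧ ∀ m n, m ≠ n →
      ¬ Relation.EqvGen (fun G H => Homeomorphic G H ∨ WideHomeomorphic G H) (f m) (f n) := by
  refine ⟨Mem, ⟨⟨_, ex_mem 1 le_rfl⟩, fun G H hG h => h.mem hG, ?_⟩, fun G h => h.2,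
    fun G H hG h => homeo_mem h hG, fun G H hG h => wide_mem h hG,
    fun n => ex (n + 1), fun n => ex_mem (n + 1) (by omega), ?_⟩
  · intro Γ
    rw [circuits_eq]
    exact ⟨fun X hX Y hY h => Good.antichain hX hY h,
      fun X hX Y hY hne e he => Good.elim hX hY hne he.1⟩
  · have hinv : ∀ G H : MGraph.{u},
        Relation.EqvGen (fun G H => Homeomorphic G H ∨ WideHomeomorphic G H) G H →
        ∀ n, Inv G n ↔ Inv H n := by
      intro G H h
      induction h with
      | rel x y hxy =>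
        intro n
        rcases hxy with h | h
        · exact homeo_inv h n
        · exact wide_inv h n
      | refl x => exact fun n => Iff.rfl
      | symm x y _ ih => exact fun n => (ih n).symm
      | trans x y z _ _ ih1 ih2 => exact fun n => (ih1 n).trans (ih2 n)
    intro m n hmn h
    have h1 := hinv _ _ h
    rcases Nat.lt_or_gt_of_ne hmn with hlt | hlt
    · have := (h1 (m + 1)).1 ((ex_inv (m + 1) (m + 1)).2 le_rfl)
      rw [ex_inv] at this
      omega
    · have := (h1 (n + 1)).2 ((ex_inv (n + 1) (n + 1)).2 le_rfl)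
      rw [ex_inv] at this
      omega

end Pool.Agent.Results.MP_221c76_co.HomeoClosedFamily
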